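import Pool.Agent.helper45.SGC.Spec

set_option autoImplicit false

namespace Pool.Agent.SGC

open Finset Pool.Agent.helper38.Neg Pool.Agent.helper55.NT

theorem DUA : DUA_stmt := by
  intro r W w h
  by_contra hw
  obtain ⟨f, hf1, hf2⟩ := Submodule.exists_le_ker_of_notMem hw
  have key : ∀ u : Fin r → ZMod 2, f u = ∑ e, f (Pi.single e 1) * u e := by
    intro u
    have h1 : u = ∑ e, u e • (Pi.single e (1 : ZMod 2) : Fin r → ZMod 2) := by
      funext i
      rw [Finset.sum_apply, Finset.sum_eq_single i]
      · simp
      · intro b _ hb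
        rw [Pi.smul_apply, Pi.single_eq_of_ne (Ne.symm hb), smul_zero]
      · intro hi
        exact absurd (Finset.mem_univ i) hi
    conv_lhs => rw [h1]
    rw [map_sum]
    apply Finset.sum_congr rfl
    intro e _
    rw [map_smul, smul_eq_mul, mul_comm]
  apply hf1
  rw [key w]
  apply h
  intro u hu
  rw [← key u]
  exact hf2 hu

end Pool.Agent.SGC
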